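import Mathlib
import Pool.Agent.X104.CB.Fib

/-!
# MP_5114ef_an: a fibered holomorphic partially hyperbolic diffeomorphism of a compact complex
fourfold whose center distribution is not holomorphic

Let `θ³ = θ + 1` with real root `ε > 1` and a complex root `μ`, `|μ| < 1`, and let
`Λ ⊆ ℂ² × ℂ` be the lattice of all `(σ(α), σ(β), τ(α) + i τ(β))`, `α, β ∈ ℤ[θ]`, where `σ(θ) = μ`,
`τ(θ) = ε`. Let `s₀, s₁` be two theta functions without common zeros and with the same factors of
automorphy for `ℤ + 2iℤ`, and `B = ℂ / (ℤ + 2iℤ)`. The fourfold is `T⁶ × B`, `T⁶ = (ℂ² × ℂ) / Λ`,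
with the complex structure whose local holomorphic coordinates are
`(z, s₀(z) w₂ - s₁(z) w₁, s₀(z) w̄₁ + s₁(z) w̄₂, y)`. Multiplication by `θ` on `T⁶` (and the identity
on `B`) is a biholomorphism `f`; the fibres of `M → B` are complex tori with varying complex
structure (as in a twistor family), the stable bundle is the `w`-direction, the unstable bundle the
`y`-direction and the center bundle is tangent to the curves `{t} × B`, whose leaf space is the torus
`T⁶`. The center bundle is not holomorphic because its slope involves the complex conjugate of the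
third coordinate, with the Wronskian of `s₀, s₁` as coefficient.
-/

set_option autoImplicit false

open scoped Manifold ContDiff Topology
open Set

namespace Pool.Agent.Results.MP_5114ef_an.FiberedFourfold

/-- The model space `ℂ⁴`. -/
abbrev C4 : Type := ℂ × ℂ × ℂ × ℂ

/-- The space `ℂ³`, here only used as a topological model of real dimension six. -/
abbrev C3 : Type := ℂ × ℂ × ℂ

/-- The model of the complex manifolds of dimension four. -/
noncomputable abbrev II : ModelWithCorners ℂ C4 C4 := 𝓘(ℂ, C4)

/-- A complex manifold of dimension four: the coordinate changes between its charts, with values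
in `ℂ⁴`, are holomorphic. -/
structure Fourfold where
  /-- the points -/
  pt : Type
  /-- the topology -/
  top : TopologicalSpace pt
  /-- the charts -/
  charts : ChartedSpace C4 pt
  /-- the coordinate changes are holomorphic -/
  holo : IsManifold II ω pt

namespace Fourfold

variable (M : Fourfold)

instance : TopologicalSpace M.pt := M.top

instance : ChartedSpace C4 M.pt := M.charts

instance : IsManifold II ω M.pt := M.holo

instance : IsManifold II 1 M.pt := IsManifold.of_le (n := ω) le_top

/-- A biholomorphism of `M`. -/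
abbrev Biholomorphism : Type := Diffeomorph II II M.pt M.pt ω

/-- The derivative of `f` at `x`. As everywhere in Mathlib, the tangent space at a point is the model
space `ℂ⁴`, through the preferred chart at the point. -/
noncomputable def D (f : M.pt → M.pt) (x : M.pt) : C4 →ₗ[ℂ] C4 := (mfderiv II II f x).toLinearMap

/-- The tangent vector of the vector field `V` at `x`, as a point of the tangent bundle. -/
def vec (V : M.pt → C4) (x : M.pt) : TangentBundle II M.pt := ⟨x, V x⟩

/-- A field of complex subspaces of the tangent spaces is a continuous subbundle: near every point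
it has a basis of continuous vector fields. -/
def IsContinuousSubbundle (F : M.pt → Submodule ℂ C4) : Prop :=
  ∀ x₀ : M.pt, ∃ U : Set M.pt, IsOpen U ∧ x₀ ∈ U ∧ ∃ (k : ℕ) (V : Fin k → M.pt → C4),
    (∀ i, ContinuousOn (M.vec (V i)) U) ∧
      ∀ x ∈ U, LinearIndependent ℂ (fun i => V i x) ∧ F x = Submodule.span ℂ (range fun i => V i x)

/-- A field of complex subspaces of the tangent spaces is a holomorphic subbundle: near every point
it is spanned by holomorphic vector fields. -/
def IsHolomorphicSubbundle (F : M.pt → Submodule ℂ C4) : Prop :=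
  ∀ x₀ : M.pt, ∃ U : Set M.pt, IsOpen U ∧ x₀ ∈ U ∧ ∃ (k : ℕ) (V : Fin k → M.pt → C4),
    (∀ i, MDifferentiableOn II II.tangent (M.vec (V i)) U) ∧
      ∀ x ∈ U, F x = Submodule.span ℂ (range fun i => V i x)

/-- `g`, which gives the squared lengths of the tangent vectors, is a continuous Riemannian metric:
on every tangent space it is a positive definite quadratic form, and it is a continuous function on
the tangent bundle. -/
structure IsRiemannianMetric (g : M.pt → C4 → ℝ) : Prop where
  bilinear : ∀ x, ∃ b : C4 →ₗ[ℝ] C4 →ₗ[ℝ] ℝ, (∀ u v, b u v = b v u) ∧ ∀ v, g x v = b v v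
  positive : ∀ x v, v ≠ 0 → 0 < g x v
  continuous : Continuous fun v : TangentBundle II M.pt => g v.1 v.2

/-- `TM = Es ⊕ Ec ⊕ Eu` is a partially hyperbolic splitting of `f` with respect to the metric with
squared lengths `g`: the three subbundles are nonzero, continuous and invariant, and for some `k ≥ 1`
and all unit vectors `vs ∈ Es`, `vc ∈ Ec`, `vu ∈ Eu` at the same point,
`‖Df^k vs‖ < min (1, ‖Df^k vc‖)` and `‖Df^k vu‖ > max (1, ‖Df^k vc‖)` (here with squares). -/
structure IsPartiallyHyperbolic (g : M.pt → C4 → ℝ) (f : M.pt → M.pt)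
    (Es Ec Eu : M.pt → Submodule ℂ C4) : Prop where
  nonzero : ∀ x, Es x ≠ ⊥ ∧ Ec x ≠ ⊥ ∧ Eu x ≠ ⊥
  splitting : ∀ x v, ∃! w : C4 × C4 × C4,
    w.1 ∈ Es x ∧ w.2.1 ∈ Ec x ∧ w.2.2 ∈ Eu x ∧ w.1 + w.2.1 + w.2.2 = v
  continuous : M.IsContinuousSubbundle Es ∧ M.IsContinuousSubbundle Ec ∧ M.IsContinuousSubbundle Eu
  invariant : ∀ x, (Es x).map (M.D f x) = Es (f x) ∧ (Ec x).map (M.D f x) = Ec (f x) ∧
    (Eu x).map (M.D f x) = Eu (f x)
  dominated : ∃ k : ℕ, 1 ≤ k ∧ ∀ x, ∀ vs ∈ Es x, ∀ vc ∈ Ec x, ∀ vu ∈ Eu x,
    g x vs = 1 → g x vc = 1 → g x vu = 1 →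
      g (f^[k] x) (M.D f^[k] x vs) < min 1 (g (f^[k] x) (M.D f^[k] x vc)) ∧
      max 1 (g (f^[k] x) (M.D f^[k] x vc)) < g (f^[k] x) (M.D f^[k] x vu)

/-- `Ec` is tangent to a foliation by compact complex curves which is a topological fibration (here
even a product): there are a compact connected topological manifold `T` of real dimension six (the
leaf space), a compact connected Riemann surface `B` and a homeomorphism `h : T × B → M` such that
every leaf map `b ↦ h (t, b)` is holomorphic and the image of its derivative is `Ec`. -/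
def IsFibered (Ec : M.pt → Submodule ℂ C4) : Prop :=
  ∃ (T B : Type) (_ : TopologicalSpace T) (_ : ChartedSpace C3 T) (_ : TopologicalSpace B)
    (_ : ChartedSpace ℂ B),
    CompactSpace T ∧ T2Space T ∧ ConnectedSpace T ∧
    CompactSpace B ∧ T2Space B ∧ ConnectedSpace B ∧ IsManifold 𝓘(ℂ, ℂ) ω B ∧
    ∃ h : T × B ≃ₜ M.pt, ∀ t b,
      MDifferentiableAt 𝓘(ℂ, ℂ) II (fun b => h (t, b)) b ∧
      LinearMap.range (mfderiv 𝓘(ℂ, ℂ) II (fun b => h (t, b)) b).toLinearMap = Ec (h (t, b))

end Fourfold

/-- The fourfold of the example. -/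
noncomputable def example₀ : Fourfold :=
  ⟨X104.CB.MM, inferInstance, inferInstance, inferInstance⟩

/-- There are a compact connected complex manifold `M` of dimension four, a biholomorphism `f` of
`M` and a partially hyperbolic splitting of `f`, with center distribution tangent to a foliation by
compact curves which is a topological fibration over a six-dimensional manifold, such that the
center distribution is not holomorphic. -/
theorem result : ∃ M : Fourfold, CompactSpace M.pt ∧ T2Space M.pt ∧ ConnectedSpace M.pt ∧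
    SecondCountableTopology M.pt ∧
    ∃ (g : M.pt → C4 → ℝ) (f : M.Biholomorphism) (Es Ec Eu : M.pt → Submodule ℂ C4),
      M.IsRiemannianMetric g ∧ M.IsPartiallyHyperbolic g f Es Ec Eu ∧ M.IsFibered Ec ∧
        ¬ M.IsHolomorphicSubbundle Ec := by
  refine ⟨example₀, (inferInstance : CompactSpace X104.CB.MM), (inferInstance : T2Space X104.CB.MM),
    (inferInstance : ConnectedSpace X104.CB.MM), ?_, X104.CB.gM, X104.CB.fdiff, X104.CB.EsM,
    X104.CB.EcM, X104.CB.EuM, ?_, ?_, ?_, X104.CB.not_hol⟩
  · have : CompactSpace X104.CB.MM := inferInstance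
    exact ChartedSpace.secondCountable_of_sigmaCompact C4 X104.CB.MM
  · have h := X104.CB.gM_metric
    exact ⟨h.bilin, h.pos, h.cont⟩
  · refine ⟨X104.CB.ne_bot_M, fun x v => ?_, ⟨X104.CB.cont_Es, X104.CB.cont_Ec, X104.CB.cont_Eu⟩,
      X104.CB.inv_sub, 1, le_rfl, fun q vs hs vc hc vu hu h1 h2 h3 =>
      X104.CB.dominated_M q vs vc vu hs hc hu h1 h2 h3⟩
    obtain ⟨w, hw, hw'⟩ := X104.CB.splitting_C4 (chartAt C4 x x) v
    refine ⟨(w.1.1, w.2.1.1, w.2.2.1), ⟨w.1.2, w.2.1.2, w.2.2.2, hw⟩, ?_⟩
    rintro ⟨a, b, c⟩ ⟨ha, hb, hc, habc⟩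
    have := hw' (⟨a, ha⟩, ⟨b, hb⟩, ⟨c, hc⟩) habc
    rw [← this]
  · refine ⟨X104.CB.TT, X104.CB.BB, inferInstance, inferInstance, inferInstance, inferInstance,
      inferInstance, inferInstance, inferInstance, inferInstance, inferInstance, inferInstance,
      inferInstance, X104.CB.hh, X104.CB.leaf_fact⟩

end Pool.Agent.Results.MP_5114ef_an.FiberedFourfold
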